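import Pool.Agent.H214.Rays
import Pool.Graph.R_seed8.TH332.DW.Depth
import Pool.Graph.R_seed8.TH26.NoDiscsOm

/-!
# MP_4f7452_an, Q1: landing of all geodesic rays does not imply visibility

There is a bounded convex domain in `ℂ × ℂ` which is not visible and in which every geodesic ray
lands.  Its boundary contains no non-trivial analytic disc.  Any two of its points are joined by a
geodesic segment, and from each of its points there starts a geodesic ray (so neither notion is
vacuous).

How the definitions match the problem file (all are in `Pool.Agent.H214.VisDefs` and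
`Pool.Graph.R_seed8.TH332.DW.Defs`):
* `kob` is the Kobayashi distance (chains of holomorphic discs, Poincare distance
  `artanh |(a-b)/(1 - conj a b)|`), `kappa` is the Kobayashi–Royden metric;
* `IsGeodesicSegment Ω γ 0 1`: `γ` is absolutely continuous on `[0,1]` with values in `Ω` and
  `∫_s^t κ(γ; γ') dr = k(γ(s), γ(t))` for `0 ≤ s ≤ t ≤ 1` (a Lebesgue integral of a nonnegative
  function, hence written with `∫⁻`);
* `IsGeodesicRay`, `StronglyVisible`, `Visible` are the notions of the problem file, word for word.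

The domain is the domain `Om` of the library's solution of MP_a95d19_an
(`Pool.Graph.R_seed8.TH332.DW`).
-/

set_option autoImplicit false

namespace Pool.Agent.Results.MP_4f7452_an.LandingNotVisible

open Metric Set Filter Topology
open Pool.TH332.DW Pool.Agent.H214.Vis

/-- There is a bounded convex domain in `ℂ²`, without analytic discs in its boundary, which is not
visible and in which every geodesic ray lands. -/
theorem result :
    ∃ Ω : Set (ℂ × ℂ), Ω.Nonempty ∧ IsOpen Ω ∧ Bornology.IsBounded Ω ∧ Convex ℝ Ω ∧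
      NoDiscs Ω ∧
      (∀ z ∈ Ω, ∀ w ∈ Ω, ∃ γ : ℝ → ℂ × ℂ, IsGeodesicSegment Ω γ 0 1 ∧ γ 0 = z ∧ γ 1 = w) ∧
      (∀ z ∈ Ω, ∃ γ : ℝ → ℂ × ℂ, IsGeodesicRay Ω γ ∧ γ 0 = z) ∧
      ¬ Visible Ω ∧
      ∀ γ : ℝ → ℂ × ℂ, IsGeodesicRay Ω γ → ∃ p ∈ frontier Ω, Tendsto γ atTop (𝓝 p) := by
  have hK : KobFacts Om := kobFacts convex_Om isOpen_Om
  refine ⟨Om, ⟨z00, z00_mem⟩, isOpen_Om, isBounded_Om, convex_Om, ?_,
    fun z hz w hw => exists_seg hz hw, fun z hz => exists_ray hz, not_visible_Om,
    fun γ hγ => landing hK (depth_upper hK) hγ⟩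
  exact noDiscs_Om (fun z hz => rho_frontier hz)
    (fun z hz => (bounds (rho_frontier hz).le).2.2.1.trans (by norm_num))
    (fun q q' hq hq' => gg_lower hq hq')

end Pool.Agent.Results.MP_4f7452_an.LandingNotVisible
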